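import Mathlib

set_option autoImplicit false

namespace Pool.Agent.Results.MP_f90694_nt.Regular

/-- the defining recursion of `h` -/
def IsH (h : ℤ → ℤ) : Prop :=
  (∀ n, n ≤ 0 → h n = 1) ∧ h 1 = 1 ∧ ∀ n, 1 < n → h n = h (n - h (n - 1)) + h (n - 2)

/-- increasing enumeration of the naturals `m` with `h m mod 2 = i` -/
noncomputable def u (h : ℤ → ℤ) (i : ℤ) (n : ℕ) : ℤ :=
  (Nat.nth (fun m : ℕ => h (m : ℤ) % 2 = i) n : ℕ)

def kernel (k : ℕ) (a : ℕ → ℤ) : Set (ℕ → ℤ) :=
  {b | ∃ j c : ℕ, c < k ^ j ∧ b = fun n => a (k ^ j * n + c)}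

def IsRegularSeq (k : ℕ) (a : ℕ → ℤ) : Prop :=
  (Submodule.span ℤ (kernel k a)).FG

lemma regular_of_state {σ : Type} (s : ℕ → σ) (hs : (Set.range s).Finite) (a : ℕ → ℤ)
    (hδ : ∀ n n' b, b < 2 → s n = s n' → s (2 * n + b) = s (2 * n' + b))
    (ha : ∀ n n', s n = s n' → a n - 2 * n = a n' - 2 * n') : IsRegularSeq 2 a := by
  classical
  have hpow : ∀ j c, c < 2 ^ j → ∀ n n', s n = s n' → s (2 ^ j * n + c) = s (2 ^ j * n' + c) := by
    intro j
    induction j with
    | zero =>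
      intro c hc n n' h
      have : c = 0 := by simpa using hc
      simpa [this] using h
    | succ j ih =>
      intro c hc n n' h
      have h1 := hδ _ _ (c % 2) (by omega) (ih (c / 2) (by rw [pow_succ] at hc; omega) n n' h)
      have e : ∀ m, 2 * (2 ^ j * m + c / 2) + c % 2 = 2 ^ (j + 1) * m + c := by
        intro m
        have : 2 ^ (j + 1) * m = 2 * (2 ^ j * m) := by ring
        omega
      rwa [e, e] at h1
  let ind : σ → ℕ → ℤ := fun x n => if s n = x then 1 else 0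
  let T : Set (ℕ → ℤ) := insert (fun n : ℕ => (n : ℤ)) (ind '' Set.range s)
  have hT : (Submodule.span ℤ T).FG :=
    Submodule.fg_span ((hs.image ind).insert _)
  have hfac : ∀ g : ℕ → ℤ, (∀ n n', s n = s n' → g n = g n') → g ∈ Submodule.span ℤ T := by
    intro g hg
    have : g = ∑ x ∈ hs.toFinset, g (Function.invFun s x) • ind x := by
      funext n
      rw [Finset.sum_apply, Finset.sum_eq_single (s n)]
      · simp only [ind, Pi.smul_apply, if_true, smul_eq_mul, mul_one]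
        exact hg _ _ (Function.invFun_eq ⟨n, rfl⟩).symm
      · intro x _ hx
        simp [ind, hx.symm]
      · intro h; exact absurd (by simp) h
    rw [this]
    refine Submodule.sum_mem _ fun x hx => Submodule.smul_mem _ _ (Submodule.subset_span ?_)
    exact Or.inr ⟨x, by simpa using hx, rfl⟩
  have hle : Submodule.span ℤ (kernel 2 a) ≤ Submodule.span ℤ T := by
    rw [Submodule.span_le]
    rintro b ⟨j, c, hc, rfl⟩
    have h1 := hfac (fun n => a (2 ^ j * n + c) - 2 ^ (j + 1) * n) (by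
      intro n n' h
      have := ha _ _ (hpow j c hc n n' h)
      push_cast at this
      rw [pow_succ]
      linarith)
    have h2 : ((2 : ℤ) ^ (j + 1)) • (fun n : ℕ => (n : ℤ)) ∈ Submodule.span ℤ T :=
      Submodule.smul_mem _ _ (Submodule.subset_span (Or.inl rfl))
    have := Submodule.add_mem _ h1 h2
    have e : (fun n => a (2 ^ j * n + c)) = ((fun n : ℕ => a (2 ^ j * n + c) - 2 ^ (j + 1) * (n : ℤ)) +
        ((2 : ℤ) ^ (j + 1)) • fun n : ℕ => (n : ℤ)) := by
      funext n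
      simp
    rw [SetLike.mem_coe, e]
    exact this
  haveI : IsNoetherian ℤ (Submodule.span ℤ T) := isNoetherian_of_fg_of_noetherian _ hT
  exact Submodule.FG.of_le_of_isNoetherian hle

def H (n : ℕ) : ℤ :=
  if h : n = 0 then 1 else if n % 2 = 1 then ((n + 1) / 2 : ℕ) else H (n - 2) + H (n / 2)
decreasing_by all_goals omega

lemma H_zero : H 0 = 1 := by rw [H]; simp

lemma H_odd (n : ℕ) : H (2 * n + 1) = n + 1 := by
  rw [H, dif_neg (by omega), if_pos (by omega)]
  have : (2 * n + 1 + 1) / 2 = n + 1 := by omega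
  rw [this]; simp

lemma H_even (n : ℕ) : H (2 * n + 2) = H (2 * n) + H (n + 1) := by
  rw [H, dif_neg (by omega), if_neg (by omega)]
  have : (2 * n + 2) / 2 = n + 1 := by omega
  rw [this]; simp

lemma H_ge (n : ℕ) : 1 ≤ H n ∧ (2 ≤ n → 2 ≤ H n) ∧ (n % 2 = 0 → (n : ℤ) ≤ H n) := by
  induction n using Nat.strong_induction_on with
  | _ n ih =>
    rcases Nat.even_or_odd' n with ⟨m, rfl | rfl⟩
    · rcases m with _ | m
      · simp [H_zero]
      · have h1 := ih (2 * m) (by omega)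
        have h2 := ih (m + 1) (by omega)
        rw [show 2 * (m + 1) = 2 * m + 2 by ring, H_even]
        push_cast at *
        omega
    · rw [H_odd]; omega

lemma eq_H (h : ℤ → ℤ) (hh : IsH h) (n : ℕ) : h n = H n := by
  obtain ⟨h0, h1, h2⟩ := hh
  induction n using Nat.strong_induction_on with
  | _ n ih =>
    rcases Nat.even_or_odd' n with ⟨m, rfl | rfl⟩
    · rcases m with _ | m
      · simp [H_zero, h0]
      · have e1 := ih (2 * m) (by omega)
        have e2 := ih (m + 1) (by omega)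
        have e3 := ih (2 * m + 1) (by omega)
        rw [show 2 * (m + 1) = 2 * m + 2 by ring, H_even, ← e1, ← e2, h2 _ (by push_cast; omega)]
        rw [H_odd] at e3
        push_cast at *
        rw [show (2 * (m : ℤ) + 2 - 1) = 2 * m + 1 by ring, e3, add_comm]
        congr 2 <;> ring
    · rcases m with _ | m
      · simpa [H_odd 0] using h1.trans (by simpa using (H_odd 0).symm)
      · have e1 := ih (2 * m + 1) (by omega)
        have e2 := ih (2 * m + 2) (by omega)
        have e3 := (H_ge (2 * m + 2)).2.2 (by omega)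
        rw [H_odd] at e1
        rw [H_odd, h2 _ (by push_cast; omega)]
        push_cast at *
        rw [show (2 * ((m : ℤ) + 1) + 1 - 1) = 2 * m + 2 by ring, e2,
          show (2 * ((m : ℤ) + 1) + 1 - 2) = 2 * m + 1 by ring, e1]
        have : h (2 * ((m : ℤ) + 1) + 1 - H (2 * m + 2)) = 1 := by
          rcases eq_or_lt_of_le e3 with e | e
          · rw [← e, show (2 * ((m : ℤ) + 1) + 1 - (2 * m + 2)) = 1 by ring, h1]
          · exact h0 _ (by omega)
        rw [this]; ring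

lemma exists_H : ∃ h, IsH h := by
  refine ⟨fun n => H n.toNat, fun n hn => ?_, ?_, fun n hn => ?_⟩
  · simp only [Int.toNat_of_nonpos hn, H_zero]
  · simpa using H_odd 0
  · obtain ⟨k, rfl⟩ : ∃ k : ℕ, n = k + 2 := ⟨(n - 2).toNat, by omega⟩
    have e1 : ((k : ℤ) + 2).toNat = k + 2 := by omega
    have e2 : ((k : ℤ) + 2 - 1).toNat = k + 1 := by omega
    have e3 : ((k : ℤ) + 2 - 2).toNat = k := by omega
    simp only [e1, e2, e3]
    rcases Nat.even_or_odd' k with ⟨m, rfl | rfl⟩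
    · rw [H_even, H_odd, add_comm]
      congr 2
      omega
    · have e4 := (H_ge (2 * m + 2)).2.2 (by omega)
      rw [show 2 * m + 1 + 2 = 2 * (m + 1) + 1 by ring, H_odd, H_odd]
      have : H (((2 * m + 1 : ℕ) : ℤ) + 2 - H (2 * m + 1 + 1)).toNat = 1 := by
        rcases eq_or_lt_of_le e4 with e | e
        · have : (((2 * m + 1 : ℕ) : ℤ) + 2 - H (2 * m + 1 + 1)).toNat = 2 * 0 + 1 := by
            rw [show 2 * m + 1 + 1 = 2 * m + 2 by ring]; omega
          rw [this, H_odd]; simp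
        · have : (((2 * m + 1 : ℕ) : ℤ) + 2 - H (2 * m + 1 + 1)).toNat = 0 := by
            rw [show 2 * m + 1 + 1 = 2 * m + 2 by ring]; omega
          rw [this, H_zero]
      rw [this]; push_cast; ring

lemma H42 (n : ℕ) : H (4 * n + 2) = H (4 * n) + n + 1 := by
  have := H_even (2 * n)
  rw [H_odd] at this
  rw [show 4 * n = 2 * (2 * n) by ring, this]; ring

lemma H44 (n : ℕ) : H (4 * n + 4) = H (4 * n) + n + 1 + H (2 * n + 2) := by
  have := H_even (2 * n + 1)
  rw [show 2 * (2 * n + 1) = 4 * n + 2 by ring, H42] at this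
  rw [← this]

lemma H84 (n : ℕ) : H (8 * n + 4) = H (8 * n) + H (4 * n) + 3 * n + 2 := by
  have := H44 (2 * n)
  rw [show 2 * (2 * n) = 4 * n by ring, H42, show 4 * (2 * n) = 8 * n by ring] at this
  rw [this]; push_cast; ring

lemma P_mod (n : ℕ) : H (8 * n + 4) % 2 = ((n : ℤ) + n / 2) % 2 := by
  induction n with
  | zero => have := H84 0; simp only [mul_zero, zero_add, H_zero] at this ⊢; rw [this]; simp
  | succ n ih =>
    have h1 := H84 (n + 1)
    have h2 := H44 (2 * n + 1)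
    rw [show 4 * (2 * n + 1) + 4 = 8 * (n + 1) by ring, show 4 * (2 * n + 1) = 8 * n + 4 by ring,
      show 2 * (2 * n + 1) + 2 = 4 * (n + 1) by ring] at h2
    push_cast at *
    have h3 : H (8 * (n + 1) + 4) = H (8 * n + 4) + (n + 1) + 2 * (H (4 * (n + 1)) + 2 * n + 3) := by
      rw [h1, h2]; ring
    rw [h3, Int.add_mul_emod_self_left]
    clear h1 h2 h3
    rw [Int.add_emod, ih, ← Int.add_emod]
    have : (n : ℤ) % 2 = 0 ∨ (n : ℤ) % 2 = 1 := by omega
    rcases this with h | h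
    · have : ((n : ℤ) + 1) / 2 = n / 2 := by omega
      rw [this]; omega
    · have : ((n : ℤ) + 1) / 2 = n / 2 + 1 := by omega
      rw [this]; omega

lemma B_even (n : ℕ) : H (8 * n) % 2 = (H (4 * n) + (n : ℤ) / 2) % 2 := by
  have h1 := H84 n
  have h2 := P_mod n
  omega

lemma block (m : ℕ) :
    H (16 * m) % 2 = (H (4 * m) + m + (m : ℤ) / 2) % 2 ∧ H (16 * m + 1) % 2 = 1 ∧
    H (16 * m + 2) % 2 = (H (4 * m) + m + (m : ℤ) / 2 + 1) % 2 ∧ H (16 * m + 3) % 2 = 0 ∧
    H (16 * m + 4) % 2 = m % 2 ∧ H (16 * m + 5) % 2 = 1 ∧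
    H (16 * m + 6) % 2 = m % 2 ∧ H (16 * m + 7) % 2 = 0 ∧
    H (16 * m + 8) % 2 = ((m : ℤ) / 2) % 2 ∧ H (16 * m + 9) % 2 = 1 ∧
    H (16 * m + 10) % 2 = ((m : ℤ) / 2 + 1) % 2 ∧ H (16 * m + 11) % 2 = 0 ∧
    H (16 * m + 12) % 2 = (m + 1) % 2 ∧ H (16 * m + 13) % 2 = 1 ∧
    H (16 * m + 14) % 2 = (m + 1) % 2 ∧ H (16 * m + 15) % 2 = 0 := by
  have a0 := B_even (2 * m)
  have a1 := B_even m
  have a2 := B_even (2 * m + 1)
  have a3 := P_mod m
  have a4 := P_mod (2 * m)
  have a5 := P_mod (2 * m + 1)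
  have b0 := H42 (4 * m)
  have b1 := H42 (4 * m + 1)
  have b2 := H42 (4 * m + 2)
  have b3 := H42 (4 * m + 3)
  have c0 := H_odd (8 * m)
  have c1 := H_odd (8 * m + 1)
  have c2 := H_odd (8 * m + 2)
  have c3 := H_odd (8 * m + 3)
  have c4 := H_odd (8 * m + 4)
  have c5 := H_odd (8 * m + 5)
  have c6 := H_odd (8 * m + 6)
  have c7 := H_odd (8 * m + 7)
  simp only [mul_add, ← mul_assoc, add_assoc] at *
  push_cast at *
  norm_num at *
  omega

lemma count_block (i : ℤ) (hi : i = 0 ∨ i = 1) (m : ℕ) :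
    Nat.count (fun j => H (16 * m + j) % 2 = i) 16 = 8 := by
  obtain ⟨h0, h1, h2, h3, h4, h5, h6, h7, h8, h9, h10, h11, h12, h13, h14, h15⟩ := block m
  simp only [Nat.count_succ, Nat.count_zero, add_zero, h0, h1, h2, h3, h4, h5, h6, h7, h8, h9,
    h10, h11, h12, h13, h14, h15]
  have e1 : (H (4 * m) + m + (m : ℤ) / 2) % 2 = 0 ∧ (H (4 * m) + m + (m : ℤ) / 2 + 1) % 2 = 1 ∨
    (H (4 * m) + m + (m : ℤ) / 2) % 2 = 1 ∧ (H (4 * m) + m + (m : ℤ) / 2 + 1) % 2 = 0 := by omega
  have e2 : (m : ℤ) % 2 = 0 ∧ ((m : ℤ) + 1) % 2 = 1 ∨ (m : ℤ) % 2 = 1 ∧ ((m : ℤ) + 1) % 2 = 0 := by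
    omega
  have e3 : ((m : ℤ) / 2) % 2 = 0 ∧ ((m : ℤ) / 2 + 1) % 2 = 1 ∨
    ((m : ℤ) / 2) % 2 = 1 ∧ ((m : ℤ) / 2 + 1) % 2 = 0 := by omega
  rcases hi with rfl | rfl <;> rcases e1 with ⟨e1, e1'⟩ | ⟨e1, e1'⟩ <;>
    rcases e2 with ⟨e2, e2'⟩ | ⟨e2, e2'⟩ <;> rcases e3 with ⟨e3, e3'⟩ | ⟨e3, e3'⟩ <;>
    simp [e1, e1', e2, e2', e3, e3']

lemma count_mul (i : ℤ) (hi : i = 0 ∨ i = 1) (m : ℕ) :
    Nat.count (fun j => H j % 2 = i) (16 * m) = 8 * m := by
  induction m with
  | zero => simp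
  | succ m ih => rw [mul_add, Nat.count_add, ih, mul_one, count_block i hi]; ring

lemma exists_idx (q : ℕ → Prop) [DecidablePred q] (N c : ℕ) (h : c < Nat.count q N) :
    ∃ j, j < N ∧ q j ∧ Nat.count q j = c := by
  induction N with
  | zero => simp at h
  | succ N ih =>
    by_cases h' : c < Nat.count q N
    · obtain ⟨j, hj, h2⟩ := ih h'
      exact ⟨j, by omega, h2⟩
    · rw [Nat.count_succ] at h
      split_ifs at h with hq
      · exact ⟨N, by omega, hq, by omega⟩
      · omega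

lemma nth_block (i : ℤ) (hi : i = 0 ∨ i = 1) (m j : ℕ) (hj : H (16 * m + j) % 2 = i) :
    Nat.nth (fun j => H j % 2 = i) (8 * m + Nat.count (fun j => H (16 * m + j) % 2 = i) j) =
      16 * m + j := by
  rw [← count_mul i hi, ← Nat.count_add (p := fun j => H j % 2 = i)]
  exact Nat.nth_count (p := fun j => H j % 2 = i) hj

lemma main (i : ℤ) (hi : i = 0 ∨ i = 1) :
    IsRegularSeq 2 (fun n => (Nat.nth (fun j => H j % 2 = i) n : ℕ)) := by
  apply regular_of_state (fun n => (H (4 * (n / 8)) % 2, n % 32))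
  · apply ((Set.finite_Ico (0 : ℤ) 2).prod (Set.finite_Iio (32 : ℕ))).subset
    rintro _ ⟨n, rfl⟩
    simp only [Set.mem_prod, Set.mem_Ico, Set.mem_Iio]
    omega
  · intro n n' b hb h
    simp only [Prod.mk.injEq] at h ⊢
    refine ⟨?_, by omega⟩
    by_cases h4 : n % 8 < 4
    · rw [show 4 * ((2 * n + b) / 8) = 8 * (n / 8) by omega,
        show 4 * ((2 * n' + b) / 8) = 8 * (n' / 8) by omega, B_even, B_even]
      push_cast
      omega
    · rw [show 4 * ((2 * n + b) / 8) = 8 * (n / 8) + 4 by omega,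
        show 4 * ((2 * n' + b) / 8) = 8 * (n' / 8) + 4 by omega, P_mod, P_mod]
      push_cast
      omega
  · intro n n' h
    simp only [Prod.mk.injEq] at h
    obtain ⟨h1, h2⟩ := h
    have hpat : ∀ j, j < 16 → H (16 * (n / 8) + j) % 2 = H (16 * (n' / 8) + j) % 2 := by
      have b1 := block (n / 8)
      have b2 := block (n' / 8)
      have h3 : (n / 8) % 4 = (n' / 8) % 4 := by omega
      generalize n / 8 = m at *
      generalize n' / 8 = m' at *
      intro j hj
      interval_cases j <;> (try simp only [add_zero]) <;> omega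
    obtain ⟨j, hj, hq, hc⟩ := exists_idx (fun j => H (16 * (n / 8) + j) % 2 = i) 16 (n % 8)
      (by rw [count_block i hi]; omega)
    have e1 := nth_block i hi (n / 8) j hq
    have e2 := nth_block i hi (n' / 8) j (by rw [← hpat j hj]; exact hq)
    have hc' : Nat.count (fun j => H (16 * (n' / 8) + j) % 2 = i) j = n % 8 := by
      rw [← hc, Nat.count_eq_card_filter_range, Nat.count_eq_card_filter_range]
      congr 1
      apply Finset.filter_congr
      intro x hx
      rw [hpat x (by have := Finset.mem_range.mp hx; omega)]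
    rw [hc, show 8 * (n / 8) + n % 8 = n by omega] at e1
    rw [hc', show 8 * (n' / 8) + n % 8 = n' by omega] at e2
    rw [e1, e2]
    push_cast
    omega

theorem result : (∃ h, IsH h) ∧ ∀ h, IsH h → IsRegularSeq 2 (u h 0) ∧ IsRegularSeq 2 (u h 1) := by
  refine ⟨exists_H, fun h hh => ?_⟩
  have : ∀ i, u h i = fun n => ((Nat.nth (fun j => H j % 2 = i) n : ℕ) : ℤ) := by
    intro i; funext n; unfold u; simp only [eq_H h hh]
  rw [this, this]
  exact ⟨main 0 (Or.inl rfl), main 1 (Or.inr rfl)⟩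

end Pool.Agent.Results.MP_f90694_nt.Regular
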